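import Pool.Agent.X219.TC.Fin

/-!
Topological conjugacy of `C^∞` diffeomorphisms of a closed manifold of dimension at least two is
not Borel reducible to the orbit equivalence relation of any Borel action of `S_∞`.
-/

set_option autoImplicit false

open scoped ContDiff Manifold

namespace Pool.Agent.Results.MP_9aeaaa_lc.NotSInfinityReducible

/-- `Diff^∞(M)`: the `C^∞` diffeomorphisms of the `m`-dimensional manifold `M`. -/
abbrev Diff (m : ℕ) (M : Type) [TopologicalSpace M]
    [ChartedSpace (EuclideanSpace ℝ (Fin m)) M] : Type :=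
  Diffeomorph (𝓡 m) (𝓡 m) M M ∞

/-- `f` and `g` are topologically conjugate: `h ∘ f = g ∘ h` for some homeomorphism `h` of `M`. -/
def TopConj {m : ℕ} {M : Type} [TopologicalSpace M] [ChartedSpace (EuclideanSpace ℝ (Fin m)) M]
    (f g : Diff m M) : Prop :=
  ∃ h : M ≃ₜ M, ∀ x : M, h (f x) = g (h x)

/-- The topology of pointwise convergence on `S_∞`, the group of all permutations of `ℕ`. -/
def sInfTopology : TopologicalSpace (Equiv.Perm ℕ) :=
  TopologicalSpace.induced (fun σ : Equiv.Perm ℕ => (σ : ℕ → ℕ)) inferInstance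

/-- The action of `S_∞` on `Y` is Borel: `(σ, y) ↦ σ • y` is a Borel map on `S_∞ × Y`. -/
def IsBorelAction (Y : Type) [mY : MeasurableSpace Y] [MulAction (Equiv.Perm ℕ) Y] : Prop :=
  @Measurable (Equiv.Perm ℕ × Y) Y ((@borel (Equiv.Perm ℕ) sInfTopology).prod mY) mY
    fun p => p.1 • p.2

/-- The equivalence relation `E` on the space `X` with the topology `τ` is Borel reducible to the
orbit equivalence relation of the action of `S_∞` on `Y`. -/
def BorelReducible {X : Type} (τ : TopologicalSpace X) (E : X → X → Prop) (Y : Type)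
    [mY : MeasurableSpace Y] [MulAction (Equiv.Perm ℕ) Y] : Prop :=
  ∃ φ : X → Y, @Measurable X Y (@borel X τ) mY φ ∧
    ∀ f g : X, E f g ↔ ∃ σ : Equiv.Perm ℕ, σ • φ f = φ g

theorem result (m : ℕ) (hm : 2 ≤ m) (M : Type) [TopologicalSpace M] [CompactSpace M] [T2Space M]
    [Nonempty M] [ChartedSpace (EuclideanSpace ℝ (Fin m)) M] [IsManifold (𝓡 m) ∞ M]
    (τ : TopologicalSpace (Diff m M)) (hτ : @PolishSpace (Diff m M) τ)
    (hev : ∀ p : M, @Continuous (Diff m M) M τ inferInstance fun f => f p)
    (Y : Type) [MeasurableSpace Y] [StandardBorelSpace Y] [MulAction (Equiv.Perm ℕ) Y]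
    (hY : IsBorelAction Y) :
    ¬ BorelReducible τ (TopConj (m := m) (M := M)) Y := by
  have hsc : SecondCountableTopology M :=
    ChartedSpace.secondCountable_of_sigmaCompact (EuclideanSpace ℝ (Fin m)) M
  rintro ⟨φ, hφ, hr⟩
  refine Pool.Agent.X219.TC.main hm (@borel _ τ) ?_ ?_ hY ⟨φ, hφ, hr⟩
  · letI := τ
    letI : MeasurableSpace (Diff m M) := borel _
    haveI : BorelSpace (Diff m M) := ⟨rfl⟩
    haveI := hτ
    infer_instance
  · intro x
    letI := τ
    borelize (Diff m M)
    borelize M
    exact (hev x).measurable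

end Pool.Agent.Results.MP_9aeaaa_lc.NotSInfinityReducible
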